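import Pool.Agent.H37.CNL.Stmts
import Pool.Agent.H51.CNK.LBZ

/-!
# Board cnl, row VBZ (adapted from helper51's row LBZ of the board cnk)
-/

set_option autoImplicit false

namespace Pool.CND

open Finset

/-- row VBZ (the row VAS is not needed) -/
theorem vbz_thm (hCHY : S_VHY) (hDVV : S_VVV) : S_VBZ := by
  classical
  intro p k L G _ _ _ _ _ _ ρ t P Δ z Y m hcv hz hcen hzY hm hY
  have hdd : DD k t Δ := hcv.dd
  have : CharP k p := hcv.ch
  have hp : p.Prime := hcv.pr
  have : Fact p.Prime := ⟨hp⟩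
  -- discrete logarithm
  let χ : G → ZMod p := fun g =>
    if h : ∃ n : ℕ, z ^ n = g then ((Classical.choose h : ℕ) : ZMod p) else 0
  have hχ : ∀ n : ℕ, χ (z ^ n) = (n : ZMod p) := by
    intro n
    have h : ∃ n' : ℕ, z ^ n' = z ^ n := ⟨n, rfl⟩
    have h1 : χ (z ^ n) = ((Classical.choose h : ℕ) : ZMod p) := dif_pos h
    rw [h1]
    have h2 := Classical.choose_spec h
    rw [pow_eq_pow_iff_modEq, hz] at h2
    exact (ZMod.natCast_eq_natCast_iff _ _ _).2 h2
  have hmem : ∀ g ∈ Subgroup.zpowers z, ∃ n : ℕ, z ^ n = g := by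
    intro g hg
    have h := mem_powers_iff_mem_zpowers.2 hg
    exact (Submonoid.mem_powers_iff g z).1 h
  have hzM : z ∈ Subgroup.zpowers z := Subgroup.mem_zpowers z
  have hMn : (Subgroup.zpowers z).Normal := by
    constructor
    intro a ha g
    obtain ⟨n, rfl⟩ := hmem a ha
    have h1 : Commute g (z ^ n) := (show Commute g z from hcen g).pow_right n
    rw [h1.eq, mul_assoc, mul_inv_cancel, mul_one]
    exact ha
  have hMc : Nat.card (Subgroup.zpowers z) = p := by rw [Nat.card_zpowers, hz]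
  have hz1 : z ≠ 1 := by
    intro h
    rw [h, orderOf_one] at hz
    exact hp.one_lt.ne hz
  obtain ⟨y, u, hby, haY, hord, hpu, hu1, hsm⟩ := hCHY p k L G ρ t P Δ (Subgroup.zpowers z) ⊥ χ hcv
    hMn inferInstance bot_le
    (by
      intro a ha b hb
      obtain ⟨i, rfl⟩ := hmem a ha
      obtain ⟨j, rfl⟩ := hmem b hb
      rw [← pow_add, hχ, hχ, hχ, Nat.cast_add])
    (by
      intro a ha
      obtain ⟨i, rfl⟩ := hmem a ha
      rw [hχ, Subgroup.mem_bot, ZMod.natCast_eq_zero_iff, ← hz, orderOf_dvd_iff_pow_eq_one])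
    ⟨z, hzM, by
      have h := hχ 1
      rw [pow_one] at h
      rw [h, Nat.cast_one]
      exact one_ne_zero⟩
  have hcb : Nat.card (⊥ : Subgroup G) = 1 := Subgroup.card_bot
  rw [hcb, one_mul] at hord
  have hzy : ρ z y = y + 1 := by
    have h := haY z hzM
    have h1 := hχ 1
    rw [pow_one] at h1
    rw [h1, Nat.cast_one] at h
    have h2 : fp k (1 : ZMod p) = 1 := by
      unfold fp
      exact map_one _
    rw [h2, map_one] at h
    exact h
  have hbu : ∀ g ∈ Subgroup.zpowers z, g ≠ 1 → P.b (ρ g) = (u : ℤ) := by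
    intro g hg hg1
    have h := hsm g hg (by rwa [Subgroup.mem_bot])
    rw [hcb] at h
    have h1 : sm (fun g => P.b (ρ g)) {x | g⁻¹ * x ∈ (⊥ : Subgroup G)} = P.b (ρ g) := by
      unfold sm
      have h2 : (univ.filter (fun x : G => x ∈ {x | g⁻¹ * x ∈ (⊥ : Subgroup G)})) = {g} := by
        ext x
        simp only [mem_filter, mem_univ, true_and, Set.mem_ofPred_eq, Subgroup.mem_bot,
          mem_singleton]
        constructor
        · intro h3
          exact (inv_mul_eq_one.1 h3).symm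
        · rintro rfl
          exact inv_mul_cancel _
      refine Eq.trans (sum_congr (s₂ := {g}) ?_ fun _ _ => rfl) (sum_singleton _ _)
      rw [← h2]
    rw [h1] at h
    simpa using h
  have hSbot : So P ρ ⊥ = So P ρ (Subgroup.zpowers z) + ((p : ℤ) - 1) * u :=
    lbz_sm_bot (fun g => P.b (ρ g)) (Subgroup.zpowers z) p u hMc hp.one_lt.le hbu
  have hy0 : y ≠ 0 := by
    intro h
    rw [h, map_zero, zero_add] at hzy
    exact zero_ne_one hzy
  obtain ⟨m0, -, hGey, -⟩ := hDVV p k L G ρ t P Δ ⊥ hcv inferInstance y hy0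
    (fun b hb => hby b hb)
  rw [hord, hSbot] at hGey
  have hbz : P.b (ρ z) = (u : ℤ) := hbu z hzM hz1
  -- the difference
  have hw : ∀ a ∈ Subgroup.zpowers z, ρ a (Y - y) = Y - y := by
    intro a ha
    obtain ⟨n, rfl⟩ := hmem a ha
    induction n with
    | zero => simp
    | succ n ih =>
      have h1 : ρ z (Y - y) = Y - y := by
        rw [map_sub, hzY, hzy]
        ring
      rw [pow_succ, map_mul, AlgEquiv.mul_apply, h1]
      exact ih (Subgroup.npow_mem_zpowers z n)
  have hDY : Δ Y = Δ y + Δ (Y - y) := by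
    rw [← hdd.add]
    congr 1
    ring
  have hD0 : Δ 0 = 0 := by
    have h := hdd.con 0
    rwa [map_zero] at h
  have hup : (u : ℤ) ≤ (p : ℤ) * u := by
    have h1 : (1 : ℤ) ≤ p := by exact_mod_cast hp.one_lt.le
    have h2 : (0 : ℤ) ≤ u := Int.natCast_nonneg u
    nlinarith
  have hGw : P.Ge (Δ (Y - y)) (min (-(p * P.b (ρ z) + So P ρ (Subgroup.zpowers z)))
      (m - So P ρ (Subgroup.zpowers z))) := by
    by_cases h0 : Y - y = 0
    · rw [h0, hD0]
      exact P.ge_zero _
    · obtain ⟨m1, -, hG1, -⟩ := hDVV p k L G ρ t P Δ (Subgroup.zpowers z) hcv hMn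
        (Y - y) h0 hw
      have h1 : P.Ge (Y - y) (min m (-(u : ℤ))) :=
        P.ge_sub (P.ge_mono hY (min_le_left _ _))
          (P.ge_mono (P.ge_ord y) (by rw [hord]; exact min_le_right _ _))
      have h2 := (P.ge_iff h0 _).1 h1
      refine P.ge_mono hG1 ?_
      rw [hbz]
      rcases min_cases m (-(u : ℤ)) with ⟨h3, -⟩ | ⟨h3, -⟩
      · rw [h3] at h2
        refine (min_le_right _ _).trans ?_
        linarith
      · rw [h3] at h2
        refine (min_le_left _ _).trans ?_
        linarith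
  rw [hDY]
  refine P.ge_add (P.ge_mono hGey ?_) hGw
  rw [hbz]
  refine (min_le_left _ _).trans ?_
  linarith

end Pool.CND
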